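import Mathlib
import Pool.Agent.Helper9.NS
import Pool.Agent.Helper15.JD.Av

/-!
# Products of two curves and their harmonic functions: statement of the block FACT
-/

set_option linter.unusedSectionVars false

namespace Pool.Agent.Helper17.IV

open VC VF Function Pool.Agent.Helper21.TO Pool.Agent.Helper15.GT Pool.Agent.Helper15.KP
open scoped TensorProduct

universe u

/-- [FACT] `F` is the function field of the product of the curves with the function fields `F₁` and `F₂`: the map
`F₁ ⊗ F₂ → F` is injective and every element of `F` is a quotient of two elements of the image. -/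
def StmtFact : Prop := ∀ (k F₁ F₂ F : Type u) [Field k] [IsAlgClosed k] [CharZero k] [Field F₁] [Algebra k F₁]
    [Field F₂] [Algebra k F₂] [Field F] [Algebra k F] (h₁ : IsFunctionField k F₁) (h₂ : IsFunctionField k F₂)
    (κ₁ : F₁ →ₐ[k] F) (κ₂ : F₂ →ₐ[k] F) (_ : Injective (Algebra.TensorProduct.productMap κ₁ κ₂))
    (_ : ∀ z : F, ∃ a b : F₁ ⊗[k] F₂, b ≠ 0 ∧
      z * Algebra.TensorProduct.productMap κ₁ κ₂ b = Algebra.TensorProduct.productMap κ₁ κ₂ a)
    (M : ℕ) (ξ : Fin M → F) (hξ : ξ ≠ 0) (n : ℕ)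
    (Φ : ((proj k (van k ξ)).pow n).Pt → k) (_ : Kills ((proj k (van k ξ)).pow n) Φ),
    ∃ Ψ : (((curve h₁).prod (curve h₂)).pow n).Pt → k, Kills (((curve h₁).prod (curve h₂)).pow n) Ψ ∧
      ∀ w : Fin n → RPl k F, Φ (fun i => evP ξ hξ (w i)) = Ψ (fun i => ((w i).pl h₁ κ₁, (w i).pl h₂ κ₂))

end Pool.Agent.Helper17.IV
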