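import Mathlib
import Pool.Agent.Helper9.NS
import Pool.Agent.Helper17.IV.Defs
import Pool.Agent.Helper26.VC.SymSq
import Pool.Agent.Helper21.TO.Transfer
import Pool.Agent.Helper15.GT.Dec

/-!
# Voisin's property for symmetric squares of curves
-/

set_option linter.unusedSectionVars false

namespace Pool.Agent.Helper17.IV

open VC VF Function Pool.Agent.Helper21.TO Pool.Agent.Helper15.GT Pool.Agent.Helper15.KP Pool.Agent.Helper15.JD
open Pool.Agent.Helper15.JC
open scoped TensorProduct

universe u

variable {k : Type u} [Field k] [IsAlgClosed k] [CharZero k]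

/-- The identity of the closures of two points with the same equations. -/
def cst17 {M : ℕ} {I J : Set (MvPolynomial (Fin M) k)} (h : I = J) (p : (proj k I).Pt) : (proj k J).Pt := h ▸ p

lemma induced_cst17 {M : ℕ} {I J : Set (MvPolynomial (Fin M) k)} (h : I = J) :
    Induced (proj k I) (proj k J) (cst17 h) := by
  subst h
  intro K _ _ hK c
  exact ⟨c, fun v => rfl⟩

lemma cst17_ppt {M : ℕ} {I J : Set (MvPolynomial (Fin M) k)} (h : I = J) (b : Fin M → k) (hb : b ≠ 0)
    (hs : Sat I b) : cst17 h (ppt b hb hs) = ppt b hb (h ▸ hs) := by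
  subst h
  rfl

lemma cst17_evP {G N : Type u} [Field G] [Algebra k G] [Field N] [Algebra k N] (i : G →ₐ[k] N) {M : ℕ} (ξ : Fin M → G)
    (hξ : ξ ≠ 0) (hξ' : (fun j => i (ξ j)) ≠ 0) (w : RPl k N) :
    cst17 (van_hom i ξ) (evP (fun j => i (ξ j)) hξ' w) = evP ξ hξ (w.comap i) := by
  obtain ⟨b, hb, hs, hv, he⟩ := exists_evP (fun j => i (ξ j)) hξ' w
  rw [he, cst17_ppt]
  exact (evP_eq hξ (Vl.comap' hξ hv) hb _).symm

lemma induced_pow17 {X Y : Variety k} {r : X.Pt → Y.Pt} (h : Induced X Y r) (n : ℕ) :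
    Induced (X.pow n) (Y.pow n) (fun p j => r (p j)) := by
  intro K _ _ hK c
  choose c' hc' using fun j => h K hK (c j)
  exact ⟨c', fun v => funext fun j => hc' j v⟩

/-- FACT for points with coordinates in a subfield. -/
lemma fact_sub17 (hF : StmtFact.{u}) {F₁ F₂ N G : Type u} [Field F₁] [Algebra k F₁] [Field F₂] [Algebra k F₂]
    [Field N] [Algebra k N] [Field G] [Algebra k G] (h₁ : IsFunctionField k F₁) (h₂ : IsFunctionField k F₂)
    (κ₁ : F₁ →ₐ[k] N) (κ₂ : F₂ →ₐ[k] N) (hinj : Injective (Algebra.TensorProduct.productMap κ₁ κ₂))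
    (hgen : ∀ z : N, ∃ a b : F₁ ⊗[k] F₂, b ≠ 0 ∧
      z * Algebra.TensorProduct.productMap κ₁ κ₂ b = Algebra.TensorProduct.productMap κ₁ κ₂ a)
    (i : G →ₐ[k] N) (M : ℕ) (ξ : Fin M → G) (hξ : ξ ≠ 0) (n : ℕ)
    (Φ : ((proj k (van k ξ)).pow n).Pt → k) (hΦ : Kills ((proj k (van k ξ)).pow n) Φ) :
    ∃ Ψ : (((curve h₁).prod (curve h₂)).pow n).Pt → k, Kills (((curve h₁).prod (curve h₂)).pow n) Ψ ∧
      ∀ w : Fin n → RPl k N, Φ (fun j => evP ξ hξ ((w j).comap i)) =
        Ψ (fun j => ((w j).pl h₁ κ₁, (w j).pl h₂ κ₂)) := by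
  have hξ' : (fun j => i (ξ j)) ≠ 0 := by
    intro h0
    apply hξ
    funext j
    exact (map_eq_zero_iff i i.toRingHom.injective).mp (congrFun h0 j)
  obtain ⟨Ψ, hΨ, h⟩ := hF k F₁ F₂ N h₁ h₂ κ₁ κ₂ hinj hgen M (fun j => i (ξ j)) hξ' n _
    (hΦ.comp (induced_pow17 (induced_cst17 (van_hom i ξ)) n))
  refine ⟨Ψ, hΨ, fun w => ?_⟩
  rw [← h w]
  congr 1
  funext j
  exact (cst17_evP i ξ hξ hξ' (w j)).symm

/-- The values of a function on exterior products of linear images. -/
lemma lin_ext17 {X Y : Variety k} {n : ℕ} (Φ : (X.pow n).Pt → k) (Ψ : (Y.pow n).Pt → k) {A : Type u}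
    (r : A → X.Pt) (c : A → Y.Cycles) (N : ℤ)
    (h : ∀ v : Fin n → A, Finsupp.linearCombination ℤ Ψ (extProd (fun j => c (v j))) =
      N • Φ (fun j => r (v j))) (a : Fin n → (A →₀ ℤ)) :
    Finsupp.linearCombination ℤ Ψ (extProd (fun j => Finsupp.linearCombination ℤ c (a j))) =
      N • Finsupp.linearCombination ℤ Φ (extProd (fun j => (a j).mapDomain r)) := by
  have e : (TM Y Ψ).compLinearMap (fun _ => Finsupp.linearCombination ℤ c) =
      N • (TM X Φ).compLinearMap (fun _ => Finsupp.lmapDomain ℤ ℤ r) := by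
    apply Module.Basis.ext_multilinear (fun _ => (Finsupp.basisSingleOne : Module.Basis A ℤ _))
    intro v
    simp only [Finsupp.coe_basisSingleOne, MultilinearMap.compLinearMap_apply, smul_apply,
      Finsupp.linearCombination_single, one_smul, Finsupp.lmapDomain_apply, Finsupp.mapDomain_single, TM_apply]
    have h1 := h v
    rw [h1]
    congr 1
    have h2 : (extProd (fun j => Finsupp.single (r (v j)) (1 : ℤ)) : (X.pow n).Cycles) =
        Finsupp.single (fun j => r (v j)) 1 := ext'_single _
    rw [h2, Finsupp.linearCombination_single, one_smul]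
  exact congrArg (fun f => f a) e

/-- An embedding of a quadratic extension in a field is determined up to the involution. -/
lemma quad17 {N G A : Type u} [Field N] [Algebra k N] [Field G] [Algebra k G] [Field A] [Algebra k A]
    (τ : N ≃ₐ[k] N) (hτ : ∀ z, τ (τ z) = z) (i : G →ₐ[k] N) (hi : ∀ z, τ z = z → z ∈ Set.range i)
    (f g : N →ₐ[k] A) (hfg : ∀ z, f (i z) = g (i z)) :
    (∀ z, g z = f z) ∨ ∀ z, g z = f (τ z) := by
  have h1 : ∀ z, g z = f z ∨ g z = f (τ z) := by
    intro z
    obtain ⟨s, hs⟩ := hi (z + τ z) (by rw [map_add, hτ, add_comm])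
    obtain ⟨q, hq⟩ := hi (z * τ z) (by rw [map_mul, hτ, mul_comm])
    have es : f z + f (τ z) = g z + g (τ z) := by
      rw [← map_add, ← map_add, ← hs, hfg]
    have eq : f z * f (τ z) = g z * g (τ z) := by
      rw [← map_mul, ← map_mul, ← hq, hfg]
    have h2 : (g z - f z) * (g z - f (τ z)) = 0 := by
      linear_combination (- g z) * es + eq
    rcases mul_eq_zero.mp h2 with h | h
    · exact Or.inl (sub_eq_zero.mp h)
    · exact Or.inr (sub_eq_zero.mp h)
  by_cases h : ∀ z, g z = f z
  · exact Or.inl h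
  · push Not at h
    obtain ⟨z, hz⟩ := h
    have hz' := (h1 z).resolve_left hz
    refine Or.inr fun y => ?_
    rcases h1 y with hy | hy
    · rcases h1 (y + z) with h2 | h2
      · rw [map_add, map_add, hy] at h2
        exact absurd (add_left_cancel h2) hz
      · rw [map_add, map_add, map_add, hz'] at h2
        exact add_right_cancel h2
    · exact hy

/-- Voisin's property for the function field of the symmetric square of a curve. -/
theorem symr (hF : StmtFact.{u}) {C N G : Type u} [Field C] [Algebra k C] [Field N] [Algebra k N] [Field G] [Algebra k G]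
    (hC : IsFunctionField k C) (κ₁ κ₂ : C →ₐ[k] N) (hinj : Injective (Algebra.TensorProduct.productMap κ₁ κ₂))
    (hgen : ∀ z : N, ∃ a b : C ⊗[k] C, b ≠ 0 ∧
      z * Algebra.TensorProduct.productMap κ₁ κ₂ b = Algebra.TensorProduct.productMap κ₁ κ₂ a)
    (τ : N ≃ₐ[k] N) (h₁ : ∀ z, τ (κ₁ z) = κ₂ z) (h₂ : ∀ z, τ (κ₂ z) = κ₁ z) (i : G →ₐ[k] N)
    (hi : ∀ z, τ (i z) = i z) (hi' : ∀ z, τ z = z → z ∈ Set.range i) (g : ℕ) (hg : IsGenus k C g) :
    VPA k G (g.choose 2) := by
  classical
  -- the involution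
  have hττ : ∀ z, τ (τ z) = z := by
    have hp : ∀ a : C ⊗[k] C, τ (τ (Algebra.TensorProduct.productMap κ₁ κ₂ a)) =
        Algebra.TensorProduct.productMap κ₁ κ₂ a := by
      intro a
      induction a using TensorProduct.induction_on with
      | zero => simp
      | tmul x y =>
        rw [Algebra.TensorProduct.productMap_apply_tmul, map_mul, map_mul, h₁, h₂, h₂, h₁]
      | add x y hx hy => rw [map_add, map_add, map_add, hx, hy]
    intro z
    obtain ⟨a, b, hb, h⟩ := hgen z
    have hb' : Algebra.TensorProduct.productMap κ₁ κ₂ b ≠ 0 := fun h0 => hb (hinj (by rw [h0, map_zero]))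
    have h3 := congrArg (fun x => τ (τ x)) h
    simp only [map_mul, hp] at h3
    rw [← h] at h3
    exact mul_right_cancel₀ hb' h3
  -- the embedding in the algebraic closure
  obtain ⟨f, hf⟩ : ∃ f : N →ₐ[k] AlgebraicClosure G, ∀ z, f (i z) = iF k G z := by
    let _ : Algebra G N := (i : G →+* N).toAlgebra
    have : IsScalarTower k G N := IsScalarTower.of_algebraMap_eq fun c => (i.commutes c).symm
    have : Algebra.IsAlgebraic G N := by
      refine ⟨fun z => ?_⟩
      obtain ⟨s, hs⟩ := hi' (z + τ z) (by rw [map_add, hττ, add_comm])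
      obtain ⟨q, hq⟩ := hi' (z * τ z) (by rw [map_mul, hττ, mul_comm])
      refine ⟨Polynomial.X ^ 2 - Polynomial.C s * Polynomial.X + Polynomial.C q, ?_, ?_⟩
      · intro h0
        have := congrArg (fun P => Polynomial.coeff P 2) h0
        simp at this
      · have e1 : algebraMap G N s = z + τ z := hs
        have e2 : algebraMap G N q = z * τ z := hq
        simp only [map_add, map_sub, map_mul, map_pow, Polynomial.aeval_X, Polynomial.aeval_C, e1, e2]
        ring
    let f : N →ₐ[G] AlgebraicClosure G := IsAlgClosed.lift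
    exact ⟨f.restrictScalars k, fun z => f.commutes z⟩
  intro M ξ hξ n hn a ha
  choose a' ha' hae using ha
  refine separation ((proj k (van k ξ)).pow n) _ fun Φ hΦ => ?_
  obtain ⟨Ψ, hΨ, hΦΨ⟩ := fact_sub17 hF hC hC κ₁ κ₂ hinj hgen i M ξ hξ n Φ hΦ
  -- the points of the product
  let X : RPl k (AlgebraicClosure G) → Place k C := fun v => v.pl hC (f.comp κ₁)
  let Y : RPl k (AlgebraicClosure G) → Place k C := fun v => v.pl hC (f.comp κ₂)
  let c : RPl k (AlgebraicClosure G) → ((curve hC).prod (curve hC)).Cycles := fun v =>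
    Finsupp.single (X v, Y v) 1 + Finsupp.single (Y v, X v) 1
  have hc : ∀ v, c v = ∑ s : Bool, Finsupp.single (if s then (X v, Y v) else (Y v, X v)) 1 := by
    intro v
    simp [c]
  have hval : ∀ (v : Fin n → RPl k (AlgebraicClosure G)) (s : Fin n → Bool),
      Ψ (fun j => if s j then (X (v j), Y (v j)) else (Y (v j), X (v j))) =
      Φ (fun j => evP ξ hξ ((v j).comap (iF k G))) := by
    intro v s
    have h3 := hΦΨ fun j => if s j then (v j).comap f else ((v j).comap f).comap (τ : N →ₐ[k] N)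
    have e1 : (fun j => evP ξ hξ ((if s j then (v j).comap f else ((v j).comap f).comap (τ : N →ₐ[k] N)).comap i)) =
        fun j => evP ξ hξ ((v j).comap (iF k G)) := by
      funext j
      congr 1
      split_ifs
      · rw [RPl.comap_comap]
        congr 1
        exact AlgHom.ext hf
      · rw [RPl.comap_comap, RPl.comap_comap]
        congr 1
        exact AlgHom.ext fun z => by
          change f (τ (i z)) = _
          rw [hi, hf]
    rw [e1] at h3
    rw [h3]
    congr 1
    funext j
    split_ifs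
    · rw [pl_comap, pl_comap]
    · rw [pl_comap, pl_comap, pl_comap, pl_comap]
      have e2 : f.comp ((τ : N →ₐ[k] N).comp κ₁) = f.comp κ₂ := AlgHom.ext fun z => congrArg f (h₁ z)
      have e3 : f.comp ((τ : N →ₐ[k] N).comp κ₂) = f.comp κ₁ := AlgHom.ext fun z => congrArg f (h₂ z)
      rw [e2, e3]
  have hlin : ∀ z : Fin n → (RPl k (AlgebraicClosure G) →₀ ℤ),
      Finsupp.linearCombination ℤ Ψ (extProd (fun j => Finsupp.linearCombination ℤ c (z j))) =
      ((2 ^ n : ℕ) : ℤ) • Finsupp.linearCombination ℤ Φ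
        (extProd (fun j => (z j).mapDomain fun w => evP ξ hξ (w.comap (iF k G)))) := by
    intro z
    refine lin_ext17 (X := proj k (van k ξ)) (Y := (curve hC).prod (curve hC)) Φ Ψ _ c _ (fun v => ?_) z
    rw [← TM_apply]
    simp only [hc]
    rw [MultilinearMap.map_sum]
    have h4 : ∀ s : Fin n → Bool, TM ((curve hC).prod (curve hC)) Ψ
        (fun j => Finsupp.single (if s j then (X (v j), Y (v j)) else (Y (v j), X (v j))) 1) =
        Φ (fun j => evP ξ hξ ((v j).comap (iF k G))) := by
      intro s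
      rw [TM_apply]
      have h5 : (extProd (fun j => Finsupp.single (if s j then (X (v j), Y (v j)) else (Y (v j), X (v j))) (1 : ℤ)) :
          (((curve hC).prod (curve hC)).pow n).Cycles) =
          Finsupp.single (fun j => if s j then (X (v j), Y (v j)) else (Y (v j), X (v j))) 1 := ext'_single _
      rw [h5, Finsupp.linearCombination_single, one_smul]
      exact hval v s
    rw [Finset.sum_congr rfl fun s _ => h4 s, Finset.sum_const, Finset.card_univ, Fintype.card_fun,
      Fintype.card_bool, Fintype.card_fin, natCast_zsmul]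
  -- the cycles on the product
  have hb1 : ∀ z : RPl k (AlgebraicClosure G) →₀ ℤ, Finsupp.linearCombination ℤ c z =
      z.mapDomain (fun v => (X v, Y v)) + z.mapDomain (fun v => (Y v, X v)) := by
    intro z
    rw [← Finsupp.lmapDomain_apply ℤ ℤ, ← Finsupp.lmapDomain_apply ℤ ℤ, ← LinearMap.add_apply]
    congr 1
    apply Finsupp.lhom_ext'
    intro v
    apply LinearMap.ext_ring
    simp [c, Finsupp.mapDomain_single]
  have hinv : Inv (k := k) (F := G) (K := C) (Finsupp.single (f.comp κ₁) (1 : ℤ) + Finsupp.single (f.comp κ₂) 1) := by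
    intro e he
    rw [Finsupp.mapDomain_add, Finsupp.mapDomain_single, Finsupp.mapDomain_single]
    rcases quad17 τ hττ i hi' f ((e : AlgebraicClosure G →ₐ[k] AlgebraicClosure G).comp f) (fun z => by
      change f (i z) = e (f (i z))
      rw [hf, he]) with h | h
    · have e1 : (e : AlgebraicClosure G →ₐ[k] AlgebraicClosure G).comp (f.comp κ₁) = f.comp κ₁ :=
        AlgHom.ext fun z => h (κ₁ z)
      have e2 : (e : AlgebraicClosure G →ₐ[k] AlgebraicClosure G).comp (f.comp κ₂) = f.comp κ₂ :=
        AlgHom.ext fun z => h (κ₂ z)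
      rw [e1, e2]
    · have e1 : (e : AlgebraicClosure G →ₐ[k] AlgebraicClosure G).comp (f.comp κ₁) = f.comp κ₂ :=
        AlgHom.ext fun z => (h (κ₁ z)).trans (congrArg f (h₁ z))
      have e2 : (e : AlgebraicClosure G →ₐ[k] AlgebraicClosure G).comp (f.comp κ₂) = f.comp κ₁ :=
        AlgHom.ext fun z => (h (κ₂ z)).trans (congrArg f (h₂ z))
      rw [e1, e2, add_comm]
  have halb : ∀ j, (a' j).mapDomain X + (a' j).mapDomain Y ∈ (curve hC).Rat := by
    intro j
    have h3 := (ha' j).2 C hC _ hinv
    rw [Finsupp.sum_add_index' (fun _ => by exact zero_smul _ _) (fun _ _ _ => by exact add_smul _ _ _),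
      Finsupp.sum_single_index (by exact zero_smul _ _), Finsupp.sum_single_index (by exact zero_smul _ _),
      one_smul, one_smul] at h3
    exact h3
  obtain ⟨m, hm, hmem⟩ := alternating_symSq hC n g hg.1 hn (fun j => Finsupp.linearCombination ℤ c (a' j))
    (fun j => by
      constructor
      · rw [hb1, Finsupp.mapDomain_add, ← Finsupp.mapDomain_comp, ← Finsupp.mapDomain_comp]
        exact halb j
      · rw [hb1, Finsupp.mapDomain_add, ← Finsupp.mapDomain_comp, ← Finsupp.mapDomain_comp, add_comm]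
        exact halb j)
    (fun j => by
      rw [hb1, Finsupp.mapDomain_add, ← Finsupp.mapDomain_comp, ← Finsupp.mapDomain_comp, add_comm]
      rfl)
  have h6 := hΨ _ hmem
  rw [map_nsmul, map_sum] at h6
  have h7 := (smul_eq_zero.mp h6).resolve_left hm.ne'
  rw [map_sum]
  have h8 : ((2 ^ n : ℕ) : ℤ) • ∑ σ : Equiv.Perm (Fin n), Finsupp.linearCombination ℤ Φ
      (((Equiv.Perm.sign σ : ℤˣ) : ℤ) • extProd (fun j => a (σ j))) = 0 := by
    rw [← h7, Finset.smul_sum]
    refine Finset.sum_congr rfl fun σ _ => ?_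
    rw [map_smul, map_smul, smul_comm]
    congr 1
    have h9 := hlin fun j => a' (σ j)
    rw [h9]
    congr 3
    funext j
    exact hae (σ j)
  refine (smul_eq_zero.mp h8).resolve_left ?_
  exact_mod_cast (pow_pos two_pos n).ne'

end Pool.Agent.Helper17.IV
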